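import Pool.Agent.helper82.T6.SpecL2

set_option autoImplicit false

/-! T6, row FS: from the tail bound LF to the sum LFS. -/

namespace Pool.Agent.T6

open Finset Pool.Agent.helper3.FT

/-- dyadic bound for one value -/
theorem FS_dy (x : ℝ) (K : ℕ) (hx : 0 ≤ x) (hK : x < 2 ^ K) :
    x ^ (3 / 2 : ℝ) ≤ 1 + ∑ k ∈ range K, (if (2 : ℝ) ^ k ≤ x then √2 ^ (3 * k + 3) else 0) := by
  rcases lt_or_ge x 1 with h1 | h1
  · have h2 : x ^ (3 / 2 : ℝ) ≤ 1 := Real.rpow_le_one hx h1.le (by norm_num)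
    have h3 : 0 ≤ ∑ k ∈ range K, (if (2 : ℝ) ^ k ≤ x then √2 ^ (3 * k + 3) else 0) :=
      sum_nonneg fun k _ => by split_ifs <;> positivity
    linarith
  · obtain ⟨n, hn1, hn2⟩ := exists_nat_pow_near h1 (by norm_num : (1 : ℝ) < 2)
    have hnK : n < K := by
      by_contra h
      push Not at h
      have : (2 : ℝ) ^ K ≤ 2 ^ n := pow_le_pow_right₀ (by norm_num) h
      linarith
    have h4 : x ^ (3 / 2 : ℝ) ≤ √2 ^ (3 * n + 3) := by
      have h5 : x ^ (3 / 2 : ℝ) ≤ ((2 : ℝ) ^ (n + 1)) ^ (3 / 2 : ℝ) :=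
        Real.rpow_le_rpow hx hn2.le (by norm_num)
      have h6 : ((2 : ℝ) ^ (n + 1)) ^ (3 / 2 : ℝ) = √2 ^ (3 * n + 3) := by
        rw [Real.sqrt_eq_rpow, ← Real.rpow_natCast, ← Real.rpow_natCast,
          ← Real.rpow_mul (by norm_num), ← Real.rpow_mul (by norm_num)]
        congr 1
        push_cast
        ring
      linarith
    have h7 : (if (2 : ℝ) ^ n ≤ x then √2 ^ (3 * n + 3) else 0) ≤
        ∑ k ∈ range K, (if (2 : ℝ) ^ k ≤ x then √2 ^ (3 * k + 3) else 0) :=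
      single_le_sum (f := fun k => if (2 : ℝ) ^ k ≤ x then √2 ^ (3 * k + 3) else 0)
        (fun k _ => by split_ifs <;> positivity) (mem_range.2 hnK)
    rw [if_pos hn1] at h7
    linarith

theorem FS_geo (K : ℕ) : ∑ k ∈ range K, ((1 : ℝ) / 4) ^ k ≤ 4 / 3 := by
  have h := Summable.sum_le_tsum (range K) (fun k _ => by positivity)
    (summable_geometric_of_lt_one (by norm_num) (by norm_num : (1 : ℝ) / 4 < 1))
  rw [tsum_geometric_of_lt_one (by norm_num) (by norm_num)] at h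
  norm_num at h ⊢
  linarith

theorem FS_geo2 (K : ℕ) : ∑ k ∈ range K, (√2 : ℝ) ^ k ≤ (√2 + 1) * √2 ^ K := by
  have h2 : (√2 : ℝ) ^ 2 = 2 := Real.sq_sqrt (by norm_num)
  have h0 : 0 ≤ (√2 : ℝ) := Real.sqrt_nonneg 2
  induction K with
  | zero => simp; linarith
  | succ K ih =>
    rw [sum_range_succ, pow_succ]
    have h3 : (√2 + 1) * (√2 ^ K * √2) = √2 ^ K * (√2 ^ 2 + √2) := by ring
    rw [h3, h2]
    nlinarith [ih]

theorem FS_q3 : (√2 : ℝ) ^ 3 ≤ 3 := by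
  have h2 : (√2 : ℝ) ^ 2 = 2 := Real.sq_sqrt (by norm_num)
  have h0 : 0 ≤ (√2 : ℝ) := Real.sqrt_nonneg 2
  have h1 : (√2 : ℝ) ≤ 3 / 2 := by
    rw [Real.sqrt_le_left (by norm_num)]
    norm_num
  have : (√2 : ℝ) ^ 3 = √2 ^ 2 * √2 := by ring
  rw [this, h2]
  linarith

theorem FS_q1 : (√2 : ℝ) ≤ 3 / 2 := by
  rw [Real.sqrt_le_left (by norm_num)]
  norm_num

theorem FS (hFL : FL_stmt) (hZ8 : Z8_stmt) (hC0 : C0_stmt) (hN4 : N4_stmt) (hN5 : N5_stmt) :
    FS_stmt := by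
  classical
  obtain ⟨y, B, A, D, τ, hy, hA, hD, hτ, hτ1, hLF⟩ := hFL
  obtain ⟨C, hC, hZ⟩ := hZ8 (1 / 8) (by norm_num)
  refine ⟨y, B + 25, 4 + 4 * A + 4 * D + 12 * C, τ, hy, by linarith, hτ, hτ1, ?_⟩
  intro b hb u
  have hb0 : 0 < b := by linarith
  have h4u : (0 : ℝ) < 4 ^ u := by positivity
  -- abbreviations
  set M : ℝ := √(2 ^ u) with hM
  have hM2 : M ^ 2 = 2 ^ u := Real.sq_sqrt (by positivity)
  have hM0 : 0 < M := Real.sqrt_pos.2 (by positivity)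
  have hM1 : 1 ≤ M := by
    rw [hM]
    exact Real.one_le_sqrt.2 (one_le_pow₀ (by norm_num))
  set E : ℝ := b ^ (B + 25) * (2 : ℝ) ^ (-(τ * u)) with hE
  have hE0 : 0 ≤ E := by positivity
  have hd1 : ∀ p ∈ PR y u, 1 ≤ p.1 := by
    intro p hp
    have h1 := (mem_filter.1 hp).1
    have h2 := (mem_product.1 h1).1
    have h3 := (mem_Ico.1 h2).1
    exact le_trans (Nat.one_le_pow _ _ (by norm_num)) h3
  have hl : ∀ p ∈ PR y u, 1 / b ^ 5 ≤ lamb b p.1 p.2 := fun p hp => ((hN5 b hb).1 p.1 p.2 (hd1 p hp)).1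
  have hl0 : ∀ p ∈ PR y u, 0 < lamb b p.1 p.2 := fun p hp => lt_of_lt_of_le (by positivity) (hl p hp)
  have hx : ∀ p ∈ PR y u, M / lamb b p.1 p.2 ≤ M * b ^ 5 := by
    intro p hp
    rw [div_le_iff₀ (hl0 p hp)]
    have h1 : 1 ≤ b ^ 5 * lamb b p.1 p.2 := by
      have := hl p hp
      rw [div_le_iff₀ (by positivity)] at this
      linarith
    nlinarith
  have hcard : ((PR y u).card : ℝ) ≤ 2 * 4 ^ u := hC0.1 y u
  rcases le_or_gt M (b ^ 5) with hcase | hcase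
  · -- large b
    have h1 : ∀ p ∈ PR y u, (M / lamb b p.1 p.2) ^ (3 / 2 : ℝ) ≤ b ^ 15 := by
      intro p hp
      have h2 : M / lamb b p.1 p.2 ≤ b ^ 10 := by
        refine (hx p hp).trans ?_
        have : M * b ^ 5 ≤ b ^ 5 * b ^ 5 := by gcongr
        refine this.trans (le_of_eq (by ring))
      have h3 : (M / lamb b p.1 p.2) ^ (3 / 2 : ℝ) ≤ (b ^ 10) ^ (3 / 2 : ℝ) :=
        Real.rpow_le_rpow (div_nonneg hM0.le (hl0 p hp).le) h2 (by norm_num)
      refine h3.trans (le_of_eq ?_)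
      rw [← Real.rpow_natCast, ← Real.rpow_natCast, ← Real.rpow_mul hb0.le]
      congr 1
      norm_num
    have h2 : ∑ p ∈ PR y u, (M / lamb b p.1 p.2) ^ (3 / 2 : ℝ) ≤ 2 * 4 ^ u * b ^ 15 := by
      refine (sum_le_sum h1).trans ?_
      rw [sum_const, nsmul_eq_mul]
      exact mul_le_mul_of_nonneg_right hcard (by positivity)
    have h3 : b ^ 15 ≤ E := by
      rw [hE]
      have h4 : (2 : ℝ) ^ (τ * u) ≤ b ^ 10 := by
        have h5 : (2 : ℝ) ^ (τ * u) ≤ (2 : ℝ) ^ (u : ℝ) := by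
          apply Real.rpow_le_rpow_of_exponent_le (by norm_num)
          have : (0 : ℝ) ≤ u := Nat.cast_nonneg u
          nlinarith
        rw [Real.rpow_natCast] at h5
        have h6 : (2 : ℝ) ^ u ≤ b ^ 10 := by
          rw [← hM2]
          calc M ^ 2 ≤ (b ^ 5) ^ 2 := by gcongr
            _ = b ^ 10 := by ring
        linarith
      have h5 : b ^ 15 * (2 : ℝ) ^ (τ * u) ≤ b ^ (B + 25) := by
        calc b ^ 15 * (2 : ℝ) ^ (τ * u) ≤ b ^ 15 * b ^ 10 := by gcongr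
          _ = b ^ 25 := by ring
          _ ≤ b ^ (B + 25) := pow_le_pow_right₀ hb (by omega)
      rw [Real.rpow_neg (by norm_num)]
      rw [← div_eq_mul_inv, le_div_iff₀ (by positivity)]
      exact h5
    calc ∑ p ∈ PR y u, (M / lamb b p.1 p.2) ^ (3 / 2 : ℝ) ≤ 2 * 4 ^ u * b ^ 15 := h2
      _ ≤ 2 * 4 ^ u * E := by gcongr
      _ = 2 * E * 4 ^ u := by ring
      _ ≤ (4 + 4 * A + 4 * D + 12 * C) * (1 + E) * 4 ^ u := by
        apply mul_le_mul_of_nonneg_right _ h4u.le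
        nlinarith
  · -- small b
    have hMb : 1 ≤ M * b ^ 5 := by
      have : (1 : ℝ) ≤ b ^ 5 := one_le_pow₀ hb
      nlinarith
    obtain ⟨n, hn1, hn2⟩ := exists_nat_pow_near hMb (by norm_num : (1 : ℝ) < 2)
    set K := n + 1 with hK
    -- counts
    set G : ℕ → ℝ := fun k => (((PR y u).filter (fun p => Gd b p.1 p.2 ∧ (2 : ℝ) ^ k ≤ M / lamb b p.1 p.2)).card : ℝ) with hG
    set N : ℕ → ℝ := fun k => (((PR y u).filter (fun p => ¬ Gd b p.1 p.2 ∧ (2 : ℝ) ^ k ≤ M / lamb b p.1 p.2)).card : ℝ) with hN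
    have hsum : ∑ p ∈ PR y u, (M / lamb b p.1 p.2) ^ (3 / 2 : ℝ) ≤
        (PR y u).card + ∑ k ∈ range K, √2 ^ (3 * k + 3) * (G k + N k) := by
      calc ∑ p ∈ PR y u, (M / lamb b p.1 p.2) ^ (3 / 2 : ℝ)
          ≤ ∑ p ∈ PR y u, (1 + ∑ k ∈ range K,
              (if (2 : ℝ) ^ k ≤ M / lamb b p.1 p.2 then √2 ^ (3 * k + 3) else 0)) := by
            refine sum_le_sum fun p hp => FS_dy _ K (div_nonneg hM0.le (hl0 p hp).le) ?_
            exact lt_of_le_of_lt (hx p hp) hn2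
        _ = (PR y u).card + ∑ k ∈ range K, ∑ p ∈ PR y u,
              (if (2 : ℝ) ^ k ≤ M / lamb b p.1 p.2 then √2 ^ (3 * k + 3) else 0) := by
            rw [sum_add_distrib, sum_comm]
            simp
        _ = _ := by
            congr 1
            refine sum_congr rfl fun k _ => ?_
            rw [← sum_filter, sum_const, nsmul_eq_mul, mul_comm]
            congr 1
            rw [hG, hN]
            dsimp only
            rw [← Nat.cast_add]
            congr 1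
            rw [← filter_filter, ← filter_filter]
            have h1 : (PR y u).filter (fun p => (2 : ℝ) ^ k ≤ M / lamb b p.1 p.2) =
              (((PR y u).filter (fun p => Gd b p.1 p.2)).filter (fun p => (2 : ℝ) ^ k ≤ M / lamb b p.1 p.2)) ∪
              (((PR y u).filter (fun p => ¬ Gd b p.1 p.2)).filter (fun p => (2 : ℝ) ^ k ≤ M / lamb b p.1 p.2)) := by
              ext p
              simp only [mem_filter, mem_union]
              tauto
            rw [h1, card_union_of_disjoint]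
            rw [disjoint_left]
            intro p hp1 hp2
            simp only [mem_filter] at hp1 hp2
            exact hp2.1.2 hp1.1.2
    have hGk : ∀ k, √2 ^ (3 * k + 3) * G k ≤ 3 * (1 / 4 : ℝ) ^ k * ((A + D * E) * 4 ^ u) := by
      intro k
      have h2 : (√2 : ℝ) ^ 2 = 2 := Real.sq_sqrt (by norm_num)
      have hs : (0 : ℝ) < √2 ^ k := by positivity
      have h1 := hLF b hb u (√2 ^ k) hs
      have hs2 : ((√2 : ℝ) ^ k) ^ 2 = 2 ^ k := by rw [← pow_mul, mul_comm, pow_mul, h2]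
      have h3 : G k ≤ ((SU b y u (√2 ^ k)).card : ℝ) := by
        rw [hG]
        dsimp only
        refine Nat.cast_le.2 (card_le_card fun p hp => ?_)
        rw [mem_filter] at hp
        rw [SU, mem_filter]
        refine ⟨hp.1, hp.2.1, ?_⟩
        rw [hs2]
        have := hp.2.2
        rw [le_div_iff₀ (hl0 p hp.1)] at this
        rw [mul_comm]
        exact this
      have h4 : b ^ B * (2 : ℝ) ^ (-(τ * u)) ≤ E := by
        rw [hE]
        refine mul_le_mul_of_nonneg_right (pow_le_pow_right₀ hb (by omega)) (by positivity)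
      have h5 : G k * (√2 ^ k) ^ 7 ≤ (A + D * E) * 4 ^ u := by
        calc G k * (√2 ^ k) ^ 7 ≤ ((SU b y u (√2 ^ k)).card : ℝ) * (√2 ^ k) ^ 7 := by gcongr
          _ ≤ _ := h1
          _ ≤ _ := by gcongr
      have h6 : (√2 : ℝ) ^ (3 * k + 3) = √2 ^ 3 * (1 / 4 : ℝ) ^ k * (√2 ^ k) ^ 7 := by
        have h7 : (√2 : ℝ) ^ 4 = 4 := by
          calc (√2 : ℝ) ^ 4 = (√2 ^ 2) ^ 2 := by ring
            _ = 4 := by rw [h2]; norm_num
        have h8 : ((√2 : ℝ) ^ k) ^ 7 = √2 ^ (3 * k) * 4 ^ k := by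
          rw [← h7]
          ring
        rw [h8]
        have h9 : (1 / 4 : ℝ) ^ k * 4 ^ k = 1 := by
          rw [← mul_pow]
          norm_num
        calc (√2 : ℝ) ^ (3 * k + 3) = √2 ^ 3 * √2 ^ (3 * k) * 1 := by ring
          _ = √2 ^ 3 * √2 ^ (3 * k) * ((1 / 4 : ℝ) ^ k * 4 ^ k) := by rw [h9]
          _ = _ := by ring
      rw [h6]
      have hG0 : 0 ≤ G k := by rw [hG]; positivity
      calc √2 ^ 3 * (1 / 4 : ℝ) ^ k * (√2 ^ k) ^ 7 * G k
          = √2 ^ 3 * (1 / 4 : ℝ) ^ k * (G k * (√2 ^ k) ^ 7) := by ring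
        _ ≤ 3 * (1 / 4 : ℝ) ^ k * ((A + D * E) * 4 ^ u) := by
            have := FS_q3
            gcongr
    have hNk : ∀ k, √2 ^ (3 * k + 3) * N k ≤ 3 * √2 ^ k * (C * b ^ 5 * M * (2 : ℝ) ^ ((1 + 1 / 8 : ℝ) * u)) := by
      intro k
      have h2 : (√2 : ℝ) ^ 2 = 2 := Real.sq_sqrt (by norm_num)
      have hV : 0 < M / 2 ^ k := by positivity
      have hVb : M / 2 ^ k * b ^ 5 < 2 ^ u := by
        have h3 : M / 2 ^ k ≤ M := div_le_self hM0.le (one_le_pow₀ (by norm_num))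
        calc M / 2 ^ k * b ^ 5 ≤ M * b ^ 5 := by gcongr
          _ < M * M := by gcongr
          _ = 2 ^ u := by rw [← hM2]; ring
      have h1 := hZ b (M / 2 ^ k) y u hb hy hV hVb
      have h3 : N k ≤ (((PR y u).filter (fun p => ∃ v : V4, v ≠ 0 ∧ InG p.1 p.2 v ∧ RV v = 0 ∧ nrm b v ≤ M / 2 ^ k)).card : ℝ) := by
        rw [hN]
        dsimp only
        refine Nat.cast_le.2 (card_le_card fun p hp => ?_)
        rw [mem_filter] at hp ⊢
        refine ⟨hp.1, ?_⟩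
        obtain ⟨v, hv0, hvG, hvl⟩ := (hN4 b p.1 p.2 hb (hd1 p hp.1)).1
        refine ⟨v, hv0, hvG, ?_, ?_⟩
        · by_contra hR
          exact hp.2.1 ⟨v, hvG, hvl, hR⟩
        · rw [hvl]
          have := hp.2.2
          rw [le_div_iff₀ (hl0 p hp.1)] at this
          rw [le_div_iff₀ (by positivity)]
          linarith
      have h4 : N k ≤ C * b ^ 5 * (M / 2 ^ k) * (2 : ℝ) ^ ((1 + 1 / 8 : ℝ) * u) := h3.trans h1
      have h6 : (√2 : ℝ) ^ (3 * k + 3) = √2 ^ 3 * √2 ^ k * 2 ^ k := by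
        have : (√2 : ℝ) ^ (3 * k + 3) = √2 ^ 3 * √2 ^ k * (√2 ^ 2) ^ k := by ring
        rw [this, h2]
      have hk0 : (2 : ℝ) ^ k ≠ 0 := by positivity
      calc √2 ^ (3 * k + 3) * N k ≤ √2 ^ (3 * k + 3) * (C * b ^ 5 * (M / 2 ^ k) * (2 : ℝ) ^ ((1 + 1 / 8 : ℝ) * u)) := by gcongr
        _ = √2 ^ 3 * √2 ^ k * (C * b ^ 5 * M * (2 : ℝ) ^ ((1 + 1 / 8 : ℝ) * u)) := by
            rw [h6]
            field_simp
        _ ≤ _ := by
            have := FS_q3
            gcongr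
    -- sums
    have hGs : ∑ k ∈ range K, √2 ^ (3 * k + 3) * G k ≤ 4 * ((A + D * E) * 4 ^ u) := by
      calc ∑ k ∈ range K, √2 ^ (3 * k + 3) * G k ≤ ∑ k ∈ range K, 3 * (1 / 4 : ℝ) ^ k * ((A + D * E) * 4 ^ u) :=
            sum_le_sum fun k _ => hGk k
        _ = 3 * (∑ k ∈ range K, (1 / 4 : ℝ) ^ k) * ((A + D * E) * 4 ^ u) := by
            rw [← sum_mul, ← mul_sum]
        _ ≤ 3 * (4 / 3) * ((A + D * E) * 4 ^ u) := by
            have := FS_geo K
            gcongr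
        _ = _ := by ring
    have hqK : (√2 : ℝ) ^ K ≤ 3 / 2 * (2 : ℝ) ^ ((u : ℝ) / 4) * b ^ 3 := by
      have h2 : (√2 : ℝ) ^ 2 = 2 := Real.sq_sqrt (by norm_num)
      have h1 : ((√2 : ℝ) ^ K) ^ 2 ≤ (3 / 2 * (2 : ℝ) ^ ((u : ℝ) / 4) * b ^ 3) ^ 2 := by
        have e1 : ((√2 : ℝ) ^ K) ^ 2 = 2 ^ K := by rw [← pow_mul, mul_comm, pow_mul, h2]
        have e2 : ((2 : ℝ) ^ ((u : ℝ) / 4)) ^ 2 = M := by
          rw [hM, Real.sqrt_eq_rpow, ← Real.rpow_natCast, ← Real.rpow_natCast,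
            ← Real.rpow_mul (by norm_num), ← Real.rpow_mul (by norm_num)]
          congr 1
          push_cast
          ring
        have e3 : (3 / 2 * (2 : ℝ) ^ ((u : ℝ) / 4) * b ^ 3) ^ 2 = 9 / 4 * M * b ^ 6 := by
          rw [← e2]
          ring
        rw [e1, e3, hK, pow_succ]
        have h3 : b ^ 5 ≤ b ^ 6 := pow_le_pow_right₀ hb (by norm_num)
        have h4 : M * b ^ 5 ≤ M * b ^ 6 := by gcongr
        have h5 : 0 ≤ M * b ^ 6 := by positivity
        nlinarith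
      exact le_of_sq_le_sq h1 (by positivity)
    have hNs : ∑ k ∈ range K, √2 ^ (3 * k + 3) * N k ≤ 12 * C * E * 4 ^ u := by
      have hP0 : 0 ≤ C * b ^ 5 * M * (2 : ℝ) ^ ((1 + 1 / 8 : ℝ) * u) := by positivity
      have hE1 : b ^ 8 * ((2 : ℝ) ^ ((u : ℝ) / 4) * M * (2 : ℝ) ^ ((1 + 1 / 8 : ℝ) * u)) ≤ E * 4 ^ u := by
        have e1 : (2 : ℝ) ^ ((u : ℝ) / 4) * M * (2 : ℝ) ^ ((1 + 1 / 8 : ℝ) * u) =
            (2 : ℝ) ^ (15 / 8 * (u : ℝ)) := by
          rw [hM, Real.sqrt_eq_rpow, ← Real.rpow_natCast, ← Real.rpow_mul (by norm_num),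
            ← Real.rpow_add (by norm_num), ← Real.rpow_add (by norm_num)]
          congr 1
          ring
        have e2 : (4 : ℝ) ^ u = (2 : ℝ) ^ (2 * (u : ℝ)) := by
          rw [Real.rpow_mul (by norm_num), Real.rpow_natCast]
          norm_num
        rw [e1, e2, hE, mul_assoc, ← Real.rpow_add (by norm_num)]
        have h3 : b ^ 8 ≤ b ^ (B + 25) := pow_le_pow_right₀ hb (by omega)
        have h4 : (2 : ℝ) ^ (15 / 8 * (u : ℝ)) ≤ (2 : ℝ) ^ (-(τ * u) + 2 * (u : ℝ)) := by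
          apply Real.rpow_le_rpow_of_exponent_le (by norm_num)
          have : (0 : ℝ) ≤ u := Nat.cast_nonneg u
          nlinarith
        gcongr
      calc ∑ k ∈ range K, √2 ^ (3 * k + 3) * N k
          ≤ ∑ k ∈ range K, 3 * √2 ^ k * (C * b ^ 5 * M * (2 : ℝ) ^ ((1 + 1 / 8 : ℝ) * u)) :=
            sum_le_sum fun k _ => hNk k
        _ = 3 * (∑ k ∈ range K, √2 ^ k) * (C * b ^ 5 * M * (2 : ℝ) ^ ((1 + 1 / 8 : ℝ) * u)) := by
            rw [← sum_mul, ← mul_sum]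
        _ ≤ 3 * ((3 / 2 + 1) * (3 / 2 * (2 : ℝ) ^ ((u : ℝ) / 4) * b ^ 3)) *
              (C * b ^ 5 * M * (2 : ℝ) ^ ((1 + 1 / 8 : ℝ) * u)) := by
            have h1 := FS_geo2 K
            have h2 := FS_q1
            have h3 : (√2 + 1) * √2 ^ K ≤ (3 / 2 + 1) * (3 / 2 * (2 : ℝ) ^ ((u : ℝ) / 4) * b ^ 3) := by
              gcongr
            have h4 := h1.trans h3
            gcongr
        _ = 45 / 4 * C * (b ^ 8 * ((2 : ℝ) ^ ((u : ℝ) / 4) * M * (2 : ℝ) ^ ((1 + 1 / 8 : ℝ) * u))) := by ring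
        _ ≤ 12 * C * (E * 4 ^ u) := by
            have h5 : 0 ≤ E * 4 ^ u := by positivity
            gcongr
            norm_num
        _ = _ := by ring
    have htot : ∑ k ∈ range K, √2 ^ (3 * k + 3) * (G k + N k) ≤
        4 * ((A + D * E) * 4 ^ u) + 12 * C * E * 4 ^ u := by
      have : ∑ k ∈ range K, √2 ^ (3 * k + 3) * (G k + N k) =
          ∑ k ∈ range K, √2 ^ (3 * k + 3) * G k + ∑ k ∈ range K, √2 ^ (3 * k + 3) * N k := by
        rw [← sum_add_distrib]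
        refine sum_congr rfl fun k _ => by ring
      rw [this]
      exact add_le_add hGs hNs
    calc ∑ p ∈ PR y u, (M / lamb b p.1 p.2) ^ (3 / 2 : ℝ)
        ≤ (PR y u).card + ∑ k ∈ range K, √2 ^ (3 * k + 3) * (G k + N k) := hsum
      _ ≤ 2 * 4 ^ u + (4 * ((A + D * E) * 4 ^ u) + 12 * C * E * 4 ^ u) := add_le_add hcard htot
      _ = (2 + 4 * A + 4 * D * E + 12 * C * E) * 4 ^ u := by ring
      _ ≤ (4 + 4 * A + 4 * D + 12 * C) * (1 + E) * 4 ^ u := by
          apply mul_le_mul_of_nonneg_right _ h4u.le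
          have h1 : 0 ≤ A * E := by positivity
          nlinarith

end Pool.Agent.T6
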