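import Pool.Agent.helper82.T6.SpecL

set_option autoImplicit false

/-! T6, row GP: packing. -/

namespace Pool.Agent.T6

open Finset Pool.Agent.helper3.FT

theorem GP_det {w : Fin 4 → Fin 4 → ℤ} (hw : LinearIndependent ℤ w) : (Matrix.of w).det ≠ 0 := by
  intro h0
  obtain ⟨v, hv, h⟩ := Matrix.exists_vecMul_eq_zero_iff.2 h0
  apply hv
  have h1 := Fintype.linearIndependent_iff.1 hw v
  funext i
  apply h1
  funext k
  have h2 := congrFun h k
  simp only [Matrix.vecMul, dotProduct, Matrix.of_apply, Pi.zero_apply] at h2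
  simp only [Finset.sum_apply, Pi.smul_apply, smul_eq_mul, Pi.zero_apply]
  exact h2

theorem GP_ne {w : Fin 4 → Fin 4 → ℤ} (hw : LinearIndependent ℤ w) (k : Fin 4) :
    ∃ i, w i k ≠ 0 := by
  by_contra hcon
  push Not at hcon
  apply GP_det hw
  exact Matrix.det_eq_zero_of_column_eq_zero k fun i => hcon i

theorem GP_solve {w : Fin 4 → Fin 4 → ℤ} (hw : LinearIndependent ℤ w) (y : Fin 4 → ℤ) :
    ∃ c : Fin 4 → ℝ, ∀ k, (y k : ℝ) = ∑ i, c i * (w i k : ℝ) := by
  have hd : ((Matrix.of w).map (Int.cast : ℤ → ℝ)).det ≠ 0 := by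
    have h1 : ((Matrix.of w).map (Int.cast : ℤ → ℝ)).det = (((Matrix.of w).det : ℤ) : ℝ) := by
      have := RingHom.map_det (Int.castRingHom ℝ) (Matrix.of w)
      simpa using this.symm
    rw [h1]
    exact_mod_cast GP_det hw
  set A := (Matrix.of w).map (Int.cast : ℤ → ℝ) with hA
  have hu : IsUnit A.det := isUnit_iff_ne_zero.2 hd
  refine ⟨Matrix.vecMul (fun k => (y k : ℝ)) A⁻¹, fun k => ?_⟩
  have h2 : Matrix.vecMul (Matrix.vecMul (fun k => (y k : ℝ)) A⁻¹) A = fun k => (y k : ℝ) := by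
    rw [Matrix.vecMul_vecMul, Matrix.nonsing_inv_mul _ hu, Matrix.vecMul_one]
  have h3 := congrFun h2 k
  simp only [Matrix.vecMul, dotProduct] at h3 ⊢
  rw [← h3]
  rfl

theorem GP : GP_stmt := by
  classical
  intro G _ _ φ hφ S w hw hS F hF
  have hS1 : ∀ k, 1 ≤ S k := by
    intro k
    obtain ⟨i, hi⟩ := GP_ne hw k
    have h1 : (1 : ℤ) ≤ |w i k| := Int.one_le_abs hi
    have h2 : (1 : ℝ) ≤ |(w i k : ℝ)| := by exact_mod_cast h1
    exact h2.trans ((hS i).2 k)
  have hy : ∀ g : G, ∃ y : Fin 4 → ℤ, φ y = g ∧ ∀ k, |(y k : ℝ)| ≤ 4 * S k := by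
    intro g
    obtain ⟨y, hy⟩ := hφ g
    obtain ⟨c, hc⟩ := GP_solve hw y
    refine ⟨y - ∑ i, ⌊c i⌋ • w i, ?_, ?_⟩
    · rw [map_sub, map_sum, hy]
      have : ∑ i, φ (⌊c i⌋ • w i) = 0 := by
        apply Finset.sum_eq_zero
        intro i _
        rw [map_zsmul, (hS i).1, smul_zero]
      rw [this, sub_zero]
    · intro k
      have h1 : (((y - ∑ i, ⌊c i⌋ • w i) k : ℤ) : ℝ) = ∑ i, Int.fract (c i) * (w i k : ℝ) := by
        simp only [Pi.sub_apply, Finset.sum_apply, Pi.smul_apply, smul_eq_mul]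
        push_cast
        rw [hc k, ← Finset.sum_sub_distrib]
        refine Finset.sum_congr rfl fun i _ => ?_
        rw [Int.fract]; ring
      rw [h1]
      refine (Finset.abs_sum_le_sum_abs _ _).trans ?_
      have h2 : ∀ i ∈ (Finset.univ : Finset (Fin 4)), |Int.fract (c i) * (w i k : ℝ)| ≤ S k := by
        intro i _
        rw [abs_mul, abs_of_nonneg (Int.fract_nonneg _)]
        have h3 := (hS i).2 k
        have h4 := (Int.fract_lt_one (c i)).le
        have h5 := abs_nonneg (w i k : ℝ)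
        have h6 := Int.fract_nonneg (c i)
        nlinarith
      refine (Finset.sum_le_card_nsmul _ _ _ h2).trans ?_
      simp
  choose Y hY1 hY2 using hy
  let box : Finset (Fin 4 → ℤ) :=
    Fintype.piFinset fun k => Finset.Icc (-⌊5 * S k⌋) ⌊5 * S k⌋
  have hcard : F.card * Fintype.card G ≤ box.card := by
    rw [← Finset.card_univ, ← Finset.card_product]
    apply Finset.card_le_card_of_injOn (fun p => p.1 + Y p.2)
    · rintro ⟨v, g⟩ hp
      rw [Finset.mem_coe, Finset.mem_product] at hp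
      have hv := (hF v hp.1).2
      rw [Finset.mem_coe, Fintype.mem_piFinset]
      intro k
      rw [Finset.mem_Icc]
      have h1 : |(((v + Y g) k : ℤ) : ℝ)| ≤ 5 * S k := by
        rw [Pi.add_apply]
        push_cast
        refine (abs_add_le _ _).trans ?_
        have := hv k
        have := hY2 g k
        linarith
      rw [abs_le] at h1
      constructor
      · have h2 : ((-((v + Y g) k) : ℤ) : ℝ) ≤ 5 * S k := by push_cast at h1 ⊢; linarith [h1.1]
        have h3 := Int.le_floor.2 h2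
        show -⌊5 * S k⌋ ≤ (v + Y g) k
        linarith
      · exact Int.le_floor.2 h1.2
    · rintro ⟨v, g⟩ hp ⟨v', g'⟩ hp' h
      rw [Finset.mem_coe, Finset.mem_product] at hp hp'
      have hv := (hF v hp.1).1
      have hv' := (hF v' hp'.1).1
      simp only at h
      have h1 : g = g' := by
        have h2 := congrArg φ h
        rw [map_add, map_add, hv, hv', hY1, hY1, zero_add, zero_add] at h2
        exact h2
      subst h1
      have h3 : v = v' := by simpa using h
      rw [h3]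
  have hbox : (box.card : ℝ) ≤ ∏ k, (11 * S k) := by
    rw [Fintype.card_piFinset]
    push_cast
    apply Finset.prod_le_prod
    · intro k _
      positivity
    · intro k _
      have h1 := hS1 k
      rw [Int.card_Icc]
      have h2 : 0 ≤ ⌊5 * S k⌋ := Int.floor_nonneg.2 (by linarith)
      have h3 : ((⌊5 * S k⌋ + 1 - -⌊5 * S k⌋).toNat : ℝ) = 2 * (⌊5 * S k⌋ : ℝ) + 1 := by
        have h4 : (((⌊5 * S k⌋ + 1 - -⌊5 * S k⌋).toNat : ℤ) : ℝ) = ((⌊5 * S k⌋ + 1 - -⌊5 * S k⌋ : ℤ) : ℝ) := by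
          rw [Int.toNat_of_nonneg (by linarith)]
        have h5 : ((⌊5 * S k⌋ + 1 - -⌊5 * S k⌋).toNat : ℝ) = (((⌊5 * S k⌋ + 1 - -⌊5 * S k⌋).toNat : ℤ) : ℝ) := by
          norm_cast
        rw [h5, h4]; push_cast; ring
      rw [h3]
      have h6 := Int.floor_le (5 * S k)
      linarith
  have h7 : ((F.card * Fintype.card G : ℕ) : ℝ) ≤ (box.card : ℝ) := by exact_mod_cast hcard
  push_cast at h7
  exact h7.trans hbox

end Pool.Agent.T6
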